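import Pool.Agent.Lib.MP_a4d28a_co.Core

/-!
MP_a4d28a_co, Q1: the dual `M*` of the 8-vertex neighborly 3-sphere `M` is not a 3-complex.
-/

namespace Pool.Agent.Results.MP_a4d28a_co.NotThreeComplex

open Pool.Agent.Lib.MP_a4d28a_co

/-- No 3-complex in any `ℝⁿ` is combinatorially equivalent to `M*`. -/
theorem result (n : ℕ) (𝒞 : Set (Set (EuclideanSpace ℝ (Fin n)))) (h𝒞 : IsThreeComplex 𝒞) :
    ¬ EquivalentToDual 𝒞 := by
  classical
  rintro ⟨e⟩
  let φ : {G : Finset (Fin 8) // IsFaceM G} →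
      {P : Set (EuclideanSpace ℝ (Fin n)) // P ∈ 𝒞 ∧ P.Nonempty} :=
    fun G => e.symm (OrderDual.toDual G)
  have hφ : ∀ G G' : {G : Finset (Fin 8) // IsFaceM G}, (φ G').1 ⊆ (φ G).1 ↔ G.1 ⊆ G'.1 := by
    intro G G'
    have h1 : φ G' ≤ φ G ↔ OrderDual.toDual G' ≤ OrderDual.toDual G := e.symm.le_iff_le
    exact h1
  have hsurj : ∀ P : Set (EuclideanSpace ℝ (Fin n)), P ∈ 𝒞 → P.Nonempty →
      ∃ G : {G : Finset (Fin 8) // IsFaceM G}, (φ G).1 = P := by
    intro P hP hne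
    refine ⟨OrderDual.ofDual (e ⟨P, hP, hne⟩), ?_⟩
    simp [φ]
  let P : Finset (Fin 8) → Set (EuclideanSpace ℝ (Fin n)) :=
    fun G => if h : IsFaceM G then (φ ⟨G, h⟩).1 else ∅
  have hP : ∀ G (h : IsFaceM G), P G = (φ ⟨G, h⟩).1 := fun G h => dif_pos h
  have hPmem : ∀ G, IsFaceM G → P G ∈ 𝒞 := fun G h => by rw [hP G h]; exact (φ ⟨G, h⟩).2.1
  have hPne : ∀ G, IsFaceM G → (P G).Nonempty := fun G h => by
    rw [hP G h]; exact (φ ⟨G, h⟩).2.2
  have hPsub : ∀ G G', IsFaceM G → IsFaceM G' → (P G' ⊆ P G ↔ G ⊆ G') := by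
    intro G G' h h'
    rw [hP G h, hP G' h']
    exact hφ ⟨G, h⟩ ⟨G', h'⟩
  have hfac := facets_isFace
  have hcard := facets_card
  let v : Finset (Fin 8) → EuclideanSpace ℝ (Fin n) :=
    fun F => if h : (P F).Nonempty then h.some else 0
  have hv : ∀ F ∈ facets, v F ∈ P F := by
    intro F hF
    have hne := hPne F (hfac F hF)
    have : v F = hne.some := dif_pos hne
    rw [this]
    exact hne.some_mem
  refine core P v ?_ hv ?_ ?_
  · intro G G' h h' hGG'
    have hsub : P G' ⊆ P G := (hPsub G G' h h').2 hGG'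
    have h1 := (h𝒞.inter (P G) (hPmem G h) (P G') (hPmem G' h')).1
    rwa [Set.inter_eq_self_of_subset_right hsub] at h1
  · intro F hF G hG _ hGF hvG
    have hF' := hfac F hF
    have hI : (P F ∩ P G).Nonempty := ⟨v F, hv F hF, hvG⟩
    have hexp := (h𝒞.inter (P F) (hPmem F hF') (P G) (hPmem G hG)).1
    have hImem : P F ∩ P G ∈ 𝒞 := h𝒞.faces _ (hPmem F hF') _ hexp hI
    obtain ⟨H, hH⟩ := hsurj _ hImem hI
    have hH' : P H.1 = P F ∩ P G := by rw [hP H.1 H.2]; exact hH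
    have hFH : F ⊆ H.1 := by
      rw [← hPsub F H.1 hF' H.2, hH']
      exact Set.inter_subset_left
    obtain ⟨_, F', hF'', hHF'⟩ := H.2
    have hFF' : F = F' := Finset.eq_of_subset_of_card_le (hFH.trans hHF')
      (by rw [hcard F hF, hcard F' hF''])
    have hHF : H.1 = F := Finset.Subset.antisymm (hFF' ▸ hHF') hFH
    rw [hHF] at hH'
    apply hGF
    rw [← hPsub G F hG hF', hH']
    exact Set.inter_subset_right
  · intro x
    have hx : IsFaceM {x} := singleton_isFace x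
    exact h𝒞.dim_le _ (hPmem _ hx)

end Pool.Agent.Results.MP_a4d28a_co.NotThreeComplex
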